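import Pool.Agent.NBT.StmtsE

/-!
# NBT row NRU: near at one point implies near in all directions `t a` (helper49, MP_e54c4c_gt)
-/

set_option autoImplicit false

open Matrix Filter Topology

namespace Pool.Agent.NBT.H49

open Pool.Agent.PFS Pool.Agent.PFJ Pool.Agent.NBT

theorem nru (tbf : TbfStmt) : NruStmt := by
  classical
  intro n C Γ Γ₀ K T c h a ε hP w z hw hz hN
  have hCC : CC C Γ := h.cc
  have hPC : PCone C := hCC.toPCone
  have hcl : ∀ i, w i ∈ closure C := fun i => (h.pes w hw).1.cl i
  obtain ⟨-, -, t3, -, -, t6, -⟩ := tbf n C Γ Γ₀ K T c h w hw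
  obtain ⟨-, -, -, -, -, t6z, -⟩ := tbf n C Γ Γ₀ K T c h z hz
  have hself : ∀ i, i ∈ upp a (a i) := by
    intro i
    unfold upp
    rw [Finset.mem_filter]
    exact ⟨Finset.mem_univ i, le_rfl⟩
  have hmem : ∀ i, z i ∈ BI C w (upp a (a i)) := by
    intro i
    rw [hP.rig (a i) w z hw hz hN]
    exact (t6z i _).mpr (hself i)
  have hfs : ∀ U : Finset (Fin K), fS w U ∈ BI C w U := by
    intro U
    unfold fS
    exact Submodule.sum_mem _ fun m hm => (t6 m U).mpr hm
  have hsplit : ∀ U : Finset (Fin K), ∑ m, w m = fS w U + ∑ m ∈ Uᶜ, w m := by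
    intro U
    unfold fS
    exact (Finset.sum_add_sum_compl U w).symm
  have h2 : ∀ i, ε • fS w (upp a (a i)) - (z i - w i) ∈ closure C ∧
      ε • fS w (upp a (a i)) + (z i - w i) ∈ closure C := by
    intro i
    have hwi : w i ∈ BI C w (upp a (a i)) := (t6 i _).mpr (hself i)
    have hd : z i - w i ∈ BI C w (upp a (a i)) := Submodule.sub_mem _ (hmem i) hwi
    have hf : ε • fS w (upp a (a i)) ∈ BI C w (upp a (a i)) := Submodule.smul_mem _ _ (hfs _)
    constructor
    · refine t3 (upp a (a i)) _ (Submodule.sub_mem _ hf hd) (fun _ => ε) ?_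
      have e : ε • fS w (upp a (a i)) - (z i - w i) + ∑ m ∈ (upp a (a i))ᶜ, ε • w m =
          ε • (∑ m, w m) - (z i - w i) := by
        rw [hsplit (upp a (a i)), smul_add, Finset.smul_sum]
        abel
      rw [e]
      exact (hN i).1
    · refine t3 (upp a (a i)) _ (Submodule.add_mem _ hf hd) (fun _ => ε) ?_
      have e : ε • fS w (upp a (a i)) + (z i - w i) + ∑ m ∈ (upp a (a i))ᶜ, ε • w m =
          ε • (∑ m, w m) + (z i - w i) := by
        rw [hsplit (upp a (a i)), smul_add, Finset.smul_sum]
        abel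
      rw [e]
      exact (hN i).2
  refine ⟨hmem, h2, ?_⟩
  intro t ht i
  have hR : ∑ m, Real.exp (t * a m) • w m - Real.exp (t * a i) • fS w (upp a (a i)) ∈
      closure C := by
    have e : ∑ m, Real.exp (t * a m) • w m - Real.exp (t * a i) • fS w (upp a (a i)) =
        ∑ m, (Real.exp (t * a m) - if m ∈ upp a (a i) then Real.exp (t * a i) else 0) • w m := by
      unfold fS
      have e1 : ∑ m ∈ upp a (a i), Real.exp (t * a i) • w m =
          ∑ m, if m ∈ upp a (a i) then Real.exp (t * a i) • w m else 0 := by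
        rw [Finset.sum_ite_mem, Finset.univ_inter]
      rw [Finset.smul_sum, e1, ← Finset.sum_sub_distrib]
      refine Finset.sum_congr rfl fun m _ => ?_
      rw [sub_smul, ite_smul, zero_smul]
    rw [e]
    refine hPC.cl_sum fun m _ => hPC.cl_smul (hcl m) ?_
    split_ifs with hm
    · unfold upp at hm
      rw [Finset.mem_filter] at hm
      have h3 : Real.exp (t * a i) ≤ Real.exp (t * a m) :=
        Real.exp_le_exp.mpr (mul_le_mul_of_nonneg_left hm.2 ht)
      linarith
    · rw [sub_zero]
      exact (Real.exp_pos _).le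
  have hR' := hPC.cl_smul hR hP.pos.le
  constructor
  · have h3 := hPC.cl_add (hPC.cl_smul (h2 i).1 (Real.exp_pos (t * a i)).le) hR'
    have e : ε • (∑ m, ws w (fun i => t * a i) m) -
        (ws z (fun i => t * a i) i - ws w (fun i => t * a i) i) =
        Real.exp (t * a i) • (ε • fS w (upp a (a i)) - (z i - w i)) +
        ε • (∑ m, Real.exp (t * a m) • w m - Real.exp (t * a i) • fS w (upp a (a i))) := by
      unfold ws
      module
    rw [e]
    exact h3
  · have h3 := hPC.cl_add (hPC.cl_smul (h2 i).2 (Real.exp_pos (t * a i)).le) hR'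
    have e : ε • (∑ m, ws w (fun i => t * a i) m) +
        (ws z (fun i => t * a i) i - ws w (fun i => t * a i) i) =
        Real.exp (t * a i) • (ε • fS w (upp a (a i)) + (z i - w i)) +
        ε • (∑ m, Real.exp (t * a m) • w m - Real.exp (t * a i) • fS w (upp a (a i))) := by
      unfold ws
      module
    rw [e]
    exact h3

end Pool.Agent.NBT.H49
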