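import Pool.Agent.NBT.StmtsE

/-!
# NBT row RTE: among many positions on one flat two are related by an element preserving the levels
(helper49, MP_e54c4c_gt)
-/

set_option autoImplicit false

open Matrix Filter Topology

namespace Pool.Agent.NBT.H49

open Pool.Agent.PFS Pool.Agent.PFJ Pool.Agent.NBT

variable {n K : ℕ}

theorem ws_ws (w : Fin K → V n) (t b : Fin K → ℝ) :
    ws (ws w t) b = ws w (fun i => t i + b i) := by
  funext i
  unfold ws
  rw [smul_smul, ← Real.exp_add, add_comm (b i)]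

theorem ws_sact (g : GL (Fin n) ℝ) (s : ℝ) (v : Fin K → V n) (b : Fin K → ℝ) :
    ws (fun i => s • act g (v i)) b = fun i => s • act g (ws v b i) := by
  funext i
  unfold ws
  rw [CC.act_smul, smul_comm]

theorem nr_sum {C : Set (V n)} (hC : PCone C) {δ : ℝ} (hδ : (K : ℝ) * δ ≤ 1 / 2)
    {w z : Fin K → V n} (hw : ∑ i, w i ∈ closure C) (hN : Nr C δ w z) :
    (2 : ℝ) • (∑ i, z i) - ∑ i, w i ∈ closure C ∧
      (2 : ℝ) • (∑ i, w i) - ∑ i, z i ∈ closure C := by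
  have h1 : ((K : ℝ) * δ) • (∑ i, w i) - (∑ i, z i - ∑ i, w i) ∈ closure C := by
    have h := hC.cl_sum (s := Finset.univ) (f := fun i => δ • (∑ m, w m) - (z i - w i))
      fun i _ => (hN i).1
    rw [Finset.sum_sub_distrib, Finset.sum_sub_distrib, Finset.sum_const, Finset.card_univ,
      Fintype.card_fin, ← Nat.cast_smul_eq_nsmul ℝ, smul_smul] at h
    exact h
  have h2 : ((K : ℝ) * δ) • (∑ i, w i) + (∑ i, z i - ∑ i, w i) ∈ closure C := by
    have h := hC.cl_sum (s := Finset.univ) (f := fun i => δ • (∑ m, w m) + (z i - w i))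
      fun i _ => (hN i).2
    rw [Finset.sum_add_distrib, Finset.sum_sub_distrib, Finset.sum_const, Finset.card_univ,
      Fintype.card_fin, ← Nat.cast_smul_eq_nsmul ℝ, smul_smul] at h
    exact h
  constructor
  · have h3 := hC.cl_add (hC.cl_smul h2 (t := 2) (by norm_num))
      (hC.cl_smul hw (t := 1 - 2 * ((K : ℝ) * δ)) (by linarith))
    have e : (2 : ℝ) • (((K : ℝ) * δ) • (∑ i, w i) + (∑ i, z i - ∑ i, w i)) +
        (1 - 2 * ((K : ℝ) * δ)) • (∑ i, w i) = (2 : ℝ) • (∑ i, z i) - ∑ i, w i := by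
      module
    rwa [e] at h3
  · have h3 := hC.cl_add h1 (hC.cl_smul hw (t := 1 - (K : ℝ) * δ) (by linarith))
    have e : (((K : ℝ) * δ) • (∑ i, w i) - (∑ i, z i - ∑ i, w i)) +
        (1 - (K : ℝ) * δ) • (∑ i, w i) = (2 : ℝ) • (∑ i, w i) - ∑ i, z i := by
      module
    rwa [e] at h3

theorem nr_mono {C : Set (V n)} (hC : PCone C) {δ ε : ℝ} (hδ : δ ≤ ε)
    {w z : Fin K → V n} (hw : ∑ i, w i ∈ closure C) (hN : Nr C δ w z) : Nr C ε w z := by
  intro i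
  have h0 := hC.cl_smul hw (sub_nonneg.mpr hδ)
  constructor
  · have h1 := hC.cl_add (hN i).1 h0
    have e : δ • (∑ m, w m) - (z i - w i) + (ε - δ) • (∑ m, w m) =
        ε • (∑ m, w m) - (z i - w i) := by module
    rwa [e] at h1
  · have h1 := hC.cl_add (hN i).2 h0
    have e : δ • (∑ m, w m) + (z i - w i) + (ε - δ) • (∑ m, w m) =
        ε • (∑ m, w m) + (z i - w i) := by module
    rwa [e] at h1

theorem rte (bin : BinStmt) (nru : NruStmt) (nrd : NrdStmt) (pgh : PghStmt)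
    (fng : FngStmt) : RteStmt := by
  intro n C Γ Γ₀ K T c h a ε hP
  have hCC : CC C Γ := h.cc
  have hPC : PCone C := hCC.toPCone
  have hK : (3 : ℝ) ≤ K := by exact_mod_cast h.three
  have hKpos : (0 : ℝ) < K := by linarith
  have hsumC : ∀ u, T u → ∑ i, u i ∈ C := fun u hu => (h.pes u hu).1.sum_mem
  obtain ⟨δ, hδ0, hδε, hδK⟩ : ∃ δ : ℝ, 0 < δ ∧ δ ≤ ε ∧ (K : ℝ) * δ ≤ 1 / 2 := by
    refine ⟨min ε (1 / (2 * K)), lt_min hP.pos (by positivity), min_le_left _ _, ?_⟩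
    have h1 : min ε (1 / (2 * (K : ℝ))) ≤ 1 / (2 * K) := min_le_right _ _
    have h2 := mul_le_mul_of_nonneg_left h1 hKpos.le
    have h3 : (K : ℝ) * (1 / (2 * K)) = 1 / 2 := by field_simp
    linarith
  have hP' : Pot C T c a δ := ⟨hδ0, fun s w z hw hz hN => hP.rig s w z hw hz
    (nr_mono hPC hδε (subset_closure (hsumC w hw)) hN), hP.two, hP.lev3⟩
  obtain ⟨N, hN⟩ := pgh n C Γ Γ₀ K T c h δ hδ0
  refine ⟨N, fun w hw θ => ?_⟩
  have hsc : ∀ u, T u → ∀ t : Fin K → ℝ, T (ws u t) := fun u hu t =>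
    h.scl u hu (fun i => Real.exp (t i)) fun i => Real.exp_pos _
  set W : ℕ → Fin (N + 1) → Fin K → V n := fun s m => ws w (fun i => θ m i + -((s : ℝ) * a i))
    with hW
  have hWT : ∀ s m, T (W s m) := fun s m => hsc w hw _
  choose m m' hmm g hg σ hσ hNr using fun s : ℕ => hN (W s) (hWT s)
  have hgΓ : ∀ s, g s ∈ Γ := fun s => h.sub (hg s)
  have hUT : ∀ s, T (fun i => σ s • act (g s) (W s (m' s) i)) := fun s =>
    h.scl _ (h.inv _ (hWT s (m' s)) (g s) (hg s)) (fun _ => σ s) fun _ => hσ s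
  -- nearness at the position itself
  have hnear : ∀ s : ℕ, Nr C δ (ws w (θ (m s)))
      (fun i => σ s • act (g s) (ws w (θ (m' s)) i)) := by
    intro s
    obtain ⟨-, -, h3⟩ := nru n C Γ Γ₀ K T c h a δ hP' _ _ (hWT s (m s)) (hUT s) (hNr s)
    have h4 := h3 (s : ℝ) (Nat.cast_nonneg s)
    rw [ws_sact, ws_ws, ws_ws] at h4
    have e : ∀ m0 : Fin (N + 1), (fun i => θ m0 i + -((s : ℝ) * a i) + (s : ℝ) * a i) =
        θ m0 := by
      intro m0
      funext i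
      ring
    rw [e, e] at h4
    exact h4
  have hxs : ∀ t : Fin K → ℝ, xs w t ∈ C := fun t => (h.pes w hw).1.pos _ fun i => Real.exp_pos _
  have hcmp : ∀ s : ℕ,
      (2 : ℝ) • (σ s • act (g s) (xs w (θ (m' s)))) - xs w (θ (m s)) ∈ closure C ∧
      (2 : ℝ) • xs w (θ (m s)) - σ s • act (g s) (xs w (θ (m' s))) ∈ closure C := by
    intro s
    have h1 := nr_sum hPC hδK (subset_closure (hsumC _ (hsc w hw (θ (m s))))) (hnear s)
    have e : ∑ i, σ s • act (g s) (ws w (θ (m' s)) i) =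
        σ s • act (g s) (xs w (θ (m' s))) := by
      unfold xs ws
      rw [CC.act_sum, Finset.smul_sum]
    rw [e] at h1
    exact h1
  -- finitely many group elements
  have hfin : ∀ m0 m0' : Fin (N + 1), {γ : GL (Fin n) ℝ | γ ∈ Γ₀ ∧ ∃ s : ℝ, 0 < s ∧
      (2 : ℝ) • (s • act γ (xs w (θ m0'))) - xs w (θ m0) ∈ closure C ∧
      (2 : ℝ) • xs w (θ m0) - s • act γ (xs w (θ m0')) ∈ closure C}.Finite := fun m0 m0' =>
    (fng n C Γ Γ₀ hCC h.sub _ (hxs _) _ (hxs _)).1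
  obtain ⟨m0, m0', γ, hfreq⟩ : ∃ (m0 m0' : Fin (N + 1)) (γ : GL (Fin n) ℝ),
      ∃ᶠ s : ℕ in atTop, m s = m0 ∧ m' s = m0' ∧ g s = γ := by
    by_contra hcon
    push Not at hcon
    have h1 : ∀ᶠ s : ℕ in atTop, ∀ (m0 m0' : Fin (N + 1)), ∀ γ ∈ {γ : GL (Fin n) ℝ | γ ∈ Γ₀ ∧
        ∃ s : ℝ, 0 < s ∧ (2 : ℝ) • (s • act γ (xs w (θ m0'))) - xs w (θ m0) ∈ closure C ∧
        (2 : ℝ) • xs w (θ m0) - s • act γ (xs w (θ m0')) ∈ closure C},
        ¬ (m s = m0 ∧ m' s = m0' ∧ g s = γ) := by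
      refine eventually_all.2 fun m0 => eventually_all.2 fun m0' =>
        (eventually_all_finite (hfin m0 m0')).2 fun γ _ => ?_
      filter_upwards [hcon m0 m0' γ] with s h1 h2
      exact h1 h2.1 h2.2.1 h2.2.2
    obtain ⟨s, hs1⟩ := h1.exists
    exact hs1 (m s) (m' s) (g s) ⟨hg s, σ s, hσ s, (hcmp s).1, (hcmp s).2⟩ ⟨rfl, rfl, rfl⟩
  obtain ⟨s1, hm1, hm1', hg1⟩ := hfreq.exists
  have hγ : γ ∈ Γ₀ := hg1 ▸ hg s1
  obtain ⟨-, σ0, σ1, hσ0, hbd⟩ := fng n C Γ Γ₀ hCC h.sub _ (hxs (θ m0)) _ (hxs (θ m0'))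
  -- the levels
  have hz1 : T (ws w (θ m0)) := hsc w hw _
  have hz2 : T (fun i => act γ (ws w (θ m0') i)) := h.inv _ (hsc w hw _) γ hγ
  have hlow : ∀ i, act γ (ws w (θ m0') i) ∈ BI C (ws w (θ m0)) (lev a i) := by
    refine nrd n C Γ Γ₀ K T c h a δ hP' _ _ hz1 hz2 σ0 σ1 hσ0 ?_
    intro N'
    obtain ⟨s, ⟨hm2, hm2', hg2⟩, hs⟩ := (hfreq.and_eventually (eventually_ge_atTop N')).exists
    have h1 := hcmp s
    rw [hm2, hm2', hg2] at h1
    have h2 := hbd γ hγ (σ s) (hσ s) h1.1 h1.2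
    refine ⟨s, σ s, by exact_mod_cast hs, h2.1, h2.2, ?_⟩
    have h3 := hNr s
    rw [hm2, hm2', hg2] at h3
    rw [ws_sact, ws_ws, ws_ws]
    exact h3
  obtain ⟨b1, b2, b3, -⟩ := bin n C Γ Γ₀ K T c h w hw
  have hBw : ∀ I, BI C (ws w (θ m0)) I = BI C w I := fun I =>
    b1 (fun i => Real.exp (θ m0 i)) (fun i => Real.exp_pos _) I
  have hact : ∀ i, act γ (w i) ∈ BI C w (lev a i) := by
    intro i
    have h1 := hlow i
    rw [hBw] at h1
    have h2 := Submodule.smul_mem _ (Real.exp (θ m0' i))⁻¹ h1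
    unfold ws at h2
    rw [CC.act_smul, smul_smul, inv_mul_cancel₀ (Real.exp_pos _).ne', one_smul] at h2
    exact h2
  obtain ⟨hT2, hB2⟩ := b2 γ hγ 1 one_pos
  refine ⟨m0, m0', ?_, γ, hγ, σ s1, hσ s1, ?_, ?_, ?_⟩
  · rw [← hm1, ← hm1']
    exact hmm s1
  · intro i
    rw [← hB2 (lev a i)]
    refine b3 _ hT2 (lev a i) fun j hj => ?_
    have hj' : a j = a i := by
      unfold lev at hj
      rw [Finset.mem_filter] at hj
      exact hj.2
    have hl : lev a j = lev a i := by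
      unfold lev
      rw [hj']
    rw [one_smul, ← hl]
    exact hact j
  · have h2 := (hcmp s1).1
    rw [hm1, hm1', hg1] at h2
    exact h2
  · have h2 := (hcmp s1).2
    rw [hm1, hm1', hg1] at h2
    exact h2

end Pool.Agent.NBT.H49
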