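import Pool.Agent.NBT.StmtsC

/-!
# NBT row SCB: forcing one more source (helper49, MP_e54c4c_gt)
-/

set_option autoImplicit false

open Matrix Filter Topology

namespace Pool.Agent.NBT.H49

open Pool.Agent.PFS Pool.Agent.PFJ Pool.Agent.NBT

theorem scb (tbf : TbfStmt) (sxn : SxnStmt) (flw : FlwStmt) (scu : ScuStmt) : ScbStmt := by
  intro n C Γ Γ₀ K T c h mn nt I Up cmp v hv j hj hvj P w st hP m hm hmP hmv hmj h3
  obtain ⟨δ, hδ, hscu⟩ := scu n C Γ Γ₀ K T c h I Up cmp
  obtain ⟨W, W', sp, nr, ⟨i, hiS, hiW⟩, surv⟩ := flw n C Γ Γ₀ K T c h mn (insert m Up)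
    (cmp.one m hm) δ hδ w st.tw
  obtain ⟨hU, hI⟩ := hscu (insert m Up) W W' (Finset.subset_insert m Up) sp nr
  obtain ⟨-, -, -, -, -, t6, -⟩ := tbf n C Γ Γ₀ K T c h W sp.tw
  have hmS : m ∈ insert m Up := Finset.mem_insert_self m Up
  have him : i = m := by
    rcases Finset.mem_insert.mp hiS with h1 | h1
    · exact h1
    · exfalso
      apply hiW
      rw [hU i h1]
      exact (t6 i _).mpr hiS
  rw [him] at hiW
  have hWm : W m ∈ BI C W (insert m Up) := (t6 m _).mpr hmS
  have hup : W' = Function.update W m (W' m) := by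
    funext l
    by_cases hl : l = m
    · rw [hl, Function.update_self]
    · rw [Function.update_of_ne hl]
      by_cases hlU : l ∈ Up
      · exact hU l hlU
      · refine sp.out l ?_
        rw [Finset.mem_insert, not_or]
        exact ⟨hl, hlU⟩
  have hMv : Mv T W m (W' m) := by
    refine ⟨?_, ?_⟩
    · rw [← hup]
      exact sp.tw'
    · intro a ha
      apply hiW
      rw [ha]
      exact Submodule.smul_mem _ _ hWm
  have notS : ∀ x ∈ I, x ≠ m → x ∉ insert m Up := by
    intro x hx hxm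
    rw [Finset.mem_insert, not_or]
    exact ⟨hxm, cmp.dis x hx⟩
  have hhelp : ∀ r, Sx C W m (W' m) r → r ∈ I := by
    intro r hr
    obtain ⟨-, -, s3⟩ := sxn n C Γ Γ₀ K T c h W sp.tw m (W' m) hMv
    have e1 := (s3 (insert m (insert m Up)ᶜ) (Finset.mem_insert_self _ _)).mpr (sp.bnd m hmS) r hr
    have e2 := (s3 (I ∪ Up) (Finset.mem_union_left _ hm)).mpr (hI m hm) r hr
    rcases Finset.mem_insert.mp e1 with h1 | h1
    · exact absurd h1 hr.1
    · rw [Finset.mem_compl, Finset.mem_insert, not_or] at h1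
      rcases Finset.mem_union.mp e2 with h2 | h2
      · exact h2
      · exact absurd h2 h1.2
  refine ⟨W, sp.tw, ?_, ?_⟩
  · obtain ⟨x, hx, hxr⟩ := st.mv
    obtain ⟨y, hy, hyr⟩ := surv v x hx (Or.inl ⟨notS v hv (Ne.symm hmv), fun i hi => by
      rw [(hxr i).mp hi]
      exact notS j hj (Ne.symm hmj)⟩)
    exact ⟨y, hy, fun r => (hyr r).trans (hxr r)⟩
  · intro m' hm'
    rcases Finset.mem_insert.mp hm' with h1 | h1
    · rw [h1]
      exact ⟨W' m, hMv, hhelp⟩
    · obtain ⟨hm'I, hm'v, hm'j, h3'⟩ := hP m' h1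
      have hne : m' ≠ m := fun e => hmP (e ▸ h1)
      obtain ⟨y, hy, hyr⟩ := st.frc m' h1
      obtain ⟨-, s2, -⟩ := sxn n C Γ Γ₀ K T c h w st.tw m' y hy
      obtain ⟨z, hz, hzr⟩ := surv m' y hy (Or.inl ⟨notS m' hm'I hne, fun r hr => by
        refine notS r (hyr r hr) ?_
        intro hrm
        rw [hrm] at hr
        have e1 := s2 m hr
        have e2 := nt m' v m hm'v (Ne.symm hmv) hne (by rw [Finset.pair_comm]; exact h3') h3
        omega⟩)
      exact ⟨z, hz, fun r hr => hyr r ((hzr r).mp hr)⟩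

end Pool.Agent.NBT.H49
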